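import Pool.Agent.Q26.RF.Main
import Pool.Agent.Q26.RF.Flag

/-!
# MP_67ef3c_al, Q1: the answer is yes

Let `G₁` and `G₂` be finitely generated torsion-free nilpotent groups. If the complexified rational
Mal'cev Lie algebras of `G₁` and `G₂` are isomorphic, then the residual finiteness growths of `G₁`
and `G₂` are equivalent.

The definitions are in `Pool/Agent/TH91/RF/Defs.lean`: `wordLen`, `depth` (the least index of a
normal subgroup of finite index avoiding `g`), `rfGrowth` (the maximum of the depths over the
nontrivial elements of length at most `n`), `GrowthEquiv` (the relation `≈`), `MalcevCompletion`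
(a rational Lie algebra `L` of strictly upper triangular matrices together with an embedding of
`G` in the unipotent group `exp L` such that every element of `exp L` has a positive power in `G`)
and `CLie` (the complex Lie algebra `ℂ ⊗ L`).

The first part says that such a completion exists for each group in question, and the second part
is the positive answer to Q1, for any choice of completions.
-/

set_option autoImplicit false

namespace Pool.Agent.Results.MP_67ef3c_al.ResidualFinitenessGrowth

open Pool.Agent.TH91.RF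

universe u v

theorem result :
    (∀ (G : Type u) [Group G] [Group.IsNilpotent G], Group.FG G →
      (∀ x : G, ∀ n : ℕ, 0 < n → x ^ n = 1 → x = 1) → Nonempty (MalcevCompletion G)) ∧
    (∀ (G₁ : Type u) (G₂ : Type v) [Group G₁] [Group G₂] [Group.IsNilpotent G₁]
      [Group.IsNilpotent G₂] (S₁ : Set G₁) (S₂ : Set G₂), S₁.Finite →
      Subgroup.closure S₁ = ⊤ → S₂.Finite → Subgroup.closure S₂ = ⊤ →
      ∀ (c₁ : MalcevCompletion G₁) (c₂ : MalcevCompletion G₂),
        Nonempty (c₁.CLie ≃ₗ⁅ℂ⁆ c₂.CLie) → GrowthEquiv (rfGrowth S₁) (rfGrowth S₂)) := by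
  refine ⟨fun G _ _ hfg htf => Pool.Agent.Q26.RF.exists_completion G hfg htf, ?_⟩
  intro G₁ G₂ _ _ _ _ S₁ S₂ hS₁ hg₁ hS₂ hg₂ c₁ c₂ ⟨φ⟩
  exact ⟨Pool.Agent.Q26.RF.dominated c₁ c₂ hS₁ hg₁ hS₂ hg₂ φ,
    Pool.Agent.Q26.RF.dominated c₂ c₁ hS₂ hg₂ hS₁ hg₁ φ.symm⟩

end Pool.Agent.Results.MP_67ef3c_al.ResidualFinitenessGrowth
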